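import Pool.Agent.Helper26.LT.Stmts
import Pool.Agent.Helper11.CF.PT3

/-!
# Rows PT3 and WLO of the sheet LT
-/

set_option autoImplicit false

namespace Pool.Agent.Helper11.LT

open MeasureTheory Filter Pool.Agent.Helper95.PW Pool.Agent.Helper95.LN Pool.Agent.Helper26.LT

theorem wa_tr (a : ℝ) (X0 : R3) : ∫ x, et a (x - X0) / nr (x - X0) = wa a :=
  integral_sub_right_eq_self (fun y : R3 => et a y / nr y) X0

theorem PT3 (h1 : ST_PT1) (hP : ST_PHC) : ST_PT3 := by
  intro a a' X0 ha ha' h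
  rw [((Pool.Agent.Helper11.CF.PT3 h1 hP a a' X0 ha ha').2 h).1, wa_tr]

theorem WLO (hP : ST_PHC) : ST_WLO := by
  intro a ha
  rw [← wa_tr a 0]
  have h2 : ∫ x : R3, et a (x - 0) * (1 / a) = kap / a := by
    rw [integral_mul_const, Pool.Agent.Helper1.LN.et_tr hP a ha 0]
    ring
  rw [← h2]
  refine integral_mono ((Pool.Agent.Helper1.LN.et_tr_int hP a ha 0).mul_const _)
    (Pool.Agent.Helper11.CF.pt3_int hP a ha 0) ?_
  intro x
  change et a (x - 0) * (1 / a) ≤ et a (x - 0) / nr (x - 0)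
  by_cases h0 : et a (x - 0) = 0
  · rw [h0, zero_mul, zero_div]
  · obtain ⟨h3, h4, h5⟩ := Pool.Agent.Helper11.CF.pt3_supp hP a ha _ h0
    rw [div_eq_mul_inv]
    refine mul_le_mul_of_nonneg_left ?_ h5.le
    rw [one_mul]
    exact inv_anti₀ (by linarith) h4.le

end Pool.Agent.Helper11.LT
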